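import Mathlib

set_option autoImplicit false

namespace Pool.Agent.Results.MP_054fa1_nt.Density

open Finset Filter Topology

/-- `a n = Im ∏_{k=0}^{n} (1 + k i)` -/
def a (n : ℕ) : ℤ := (∏ k ∈ range (n + 1), (⟨1, k⟩ : GaussianInt)).im

theorem zero {q n : ℕ} [NeZero q] (hq : q ∣ (n + 1).factorial) (r : ZMod q) (hr : r * r = -1) :
    ((∏ k ∈ range (n + 1), (⟨1, k⟩ : GaussianInt)).re : ZMod q) + (a n : ZMod q) * r = 0 := by
  have h := map_prod (Zsqrtd.lift ⟨r, by simpa using hr⟩ : GaussianInt →+* ZMod q)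
    (fun k : ℕ => (⟨1, k⟩ : GaussianInt)) (range (n + 1))
  simp only [Zsqrtd.lift_apply_apply] at h
  rw [a, h]
  have e : ∀ k : ℕ, ((1 : ℤ) : ZMod q) + ((k : ℤ) : ZMod q) * r = r * (((-r).val + k : ℕ) : ZMod q) := by
    intro k
    push_cast
    rw [ZMod.natCast_zmod_val]
    linear_combination hr
  simp only [e]
  rw [prod_mul_distrib, ← Nat.cast_prod, ← Nat.ascFactorial_eq_prod_range,
    (ZMod.natCast_eq_zero_iff _ _).2 (hq.trans (Nat.factorial_dvd_ascFactorial _ _)), mul_zero]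

theorem exr {p : ℕ} (hp : p.Prime) (h4 : p % 4 = 1) (e : ℕ) :
    ∃ r : ZMod (p ^ e), r * r = -1 := by
  haveI := Fact.mk hp
  haveI : NeZero (p ^ e) := ⟨pow_ne_zero _ hp.ne_zero⟩
  obtain ⟨s, hs⟩ := ZMod.exists_sq_eq_neg_one_iff.2 (show p % 4 ≠ 3 by omega)
  have h1 : (p : ℤ) ∣ (s.val : ℤ) * s.val - (-1) := by
    rw [← ZMod.intCast_zmod_eq_zero_iff_dvd]; push_cast
    rw [ZMod.natCast_zmod_val, ← hs]; ring
  have h2 := dvd_sub_pow_of_dvd_sub h1 e
  have odd : Odd (p ^ e) := (Nat.odd_iff.2 (by omega)).pow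
  rw [odd.neg_one_pow, mul_pow] at h2
  have h3 : ((p ^ e : ℕ) : ℤ) ∣ (s.val : ℤ) ^ p ^ e * (s.val : ℤ) ^ p ^ e - (-1) := by
    push_cast; exact (pow_dvd_pow _ (Nat.le_succ e)).trans h2
  rw [← ZMod.intCast_zmod_eq_zero_iff_dvd] at h3
  exact
    ⟨(((s.val : ℤ) ^ p ^ e : ℤ) : ZMod (p ^ e)), by
      rw [Int.cast_sub, Int.cast_mul] at h3
      linear_combination (norm := (push_cast; ring)) h3⟩

theorem dvd {p : ℕ} (hp : p.Prime) (h4 : p % 4 = 1) (n e : ℕ) (he : p ^ e ∣ (n + 1).factorial) :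
    (p : ℤ) ^ e ∣ a n := by
  haveI : NeZero (p ^ e) := ⟨pow_ne_zero _ hp.ne_zero⟩
  have odd : Odd (p ^ e) := (Nat.odd_iff.2 (by omega)).pow
  obtain ⟨r, hr⟩ := exr hp h4 e
  have z1 := zero he r hr
  have z2 := zero he (-r) (by rw [neg_mul_neg, hr])
  have z3 : ((2 * a n : ℤ) : ZMod (p ^ e)) = 0 := by
    push_cast
    linear_combination (-r) * z1 + r * z2 + 2 * (a n : ZMod (p ^ e)) * hr
  rw [ZMod.intCast_zmod_eq_zero_iff_dvd] at z3
  have cop : IsCoprime ((p ^ e : ℕ) : ℤ) 2 := by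
    exact_mod_cast Nat.isCoprime_iff_coprime.2 (Nat.coprime_two_right.2 odd)
  exact_mod_cast cop.dvd_of_dvd_mul_left z3

theorem comb {p M e n : ℕ} (hp : p.Prime) (hM : 0 < M) (h1 : p ^ e ∣ M * M + 1)
    (h2 : p ^ e ∣ ∏ k ∈ range (n + 1), (M + k)) :
    e ≤ padicValNat p n.factorial + Nat.log p (n * n + 1) := by
  haveI := Fact.mk hp
  obtain ⟨v, hv⟩ : ∃ v : ℕ → ℕ, v = fun k => (M + k).factorization p := ⟨_, rfl⟩
  have d1 : ∀ k, p ^ v k ∣ M + k := fun k => by rw [hv]; exact Nat.ordProj_dvd _ _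
  obtain ⟨c, hc, hmax⟩ := exists_max_image (range (n + 1)) v ⟨0, by simp⟩
  have d2 : ∀ k ∈ range (n + 1), p ^ v k ∣ M + c := fun k hk =>
    (pow_dvd_pow _ (hmax k hk)).trans (d1 c)
  obtain ⟨d, rfl⟩ : ∃ d, n = c + d := ⟨n - c, by have := mem_range.1 hc; omega⟩
  have a1 : min (v c) e ≤ Nat.log p ((c + d) * (c + d) + 1) := by
    have b1 : p ^ min (v c) e ∣ M + c := (pow_dvd_pow _ (min_le_left _ _)).trans (d1 c)
    have b2 : p ^ min (v c) e ∣ M * M + 1 := (pow_dvd_pow _ (min_le_right _ _)).trans h1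
    have b3 : p ^ min (v c) e ∣ c * c + 1 := by
      have : (M + c) * c + (M * M + 1) = (c * c + 1) + (M + c) * M := by ring
      exact (Nat.dvd_add_left (b1.mul_right M)).1 (this ▸ dvd_add (b1.mul_right c) b2)
    exact Nat.le_log_of_pow_le hp.one_lt ((Nat.le_of_dvd (by omega) b3).trans (by nlinarith))
  have a2 : e ≤ ∑ k ∈ range (c + d + 1), v k := by
    have := (hp.pow_dvd_iff_le_factorization (prod_ne_zero_iff.2 fun k _ => by omega)).1 h2
    rw [Nat.factorization_prod fun k _ => by omega, Finsupp.finset_sum_apply] at this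
    simpa [hv] using this
  rw [add_assoc, sum_range_add, sum_range_succ'] at a2
  have a3 : p ^ ∑ k ∈ range c, v k ∣ c.factorial := by
    rw [← prod_pow_eq_pow_sum, ← Nat.descFactorial_self, Nat.descFactorial_eq_prod_range]
    refine prod_dvd_prod_of_dvd _ _ fun k hk => ?_
    have := mem_range.1 hk
    have t := Nat.dvd_sub (d2 k (mem_range.2 (by omega))) (d1 k)
    rwa [show M + c - (M + k) = c - k by omega] at t
  have a4 : p ^ ∑ k ∈ range d, v (c + (k + 1)) ∣ d.factorial := by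
    rw [← prod_pow_eq_pow_sum, ← prod_range_add_one_eq_factorial]
    refine prod_dvd_prod_of_dvd _ _ fun k hk => ?_
    have := mem_range.1 hk
    have t := Nat.dvd_sub (d1 (c + (k + 1))) (d2 (c + (k + 1)) (mem_range.2 (by omega)))
    rwa [show M + (c + (k + 1)) - (M + c) = k + 1 by omega] at t
  have a5 := (mul_dvd_mul a3 a4).trans (Nat.factorial_mul_factorial_dvd_factorial_add c d)
  rw [← pow_add, padicValNat_dvd_iff_le (Nat.factorial_ne_zero _)] at a5
  simp only [add_zero] at a2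
  omega

theorem upper {p : ℕ} (hp : p.Prime) (h4 : p % 4 = 1) (n e : ℕ) (h1 : (p : ℤ) ^ e ∣ a n)
    (h2 : (p : ℤ) ^ e ∣ (∏ k ∈ range (n + 1), (⟨1, k⟩ : GaussianInt)).re) :
    e ≤ padicValNat p n.factorial + Nat.log p (n * n + 1) := by
  haveI : NeZero (p ^ e) := ⟨pow_ne_zero _ hp.ne_zero⟩
  obtain ⟨r, hr⟩ := exr hp h4 e
  have hM : (((-r).val + p ^ e : ℕ) : ZMod (p ^ e)) = -r := by
    rw [Nat.cast_add, ZMod.natCast_self, add_zero, ZMod.natCast_zmod_val]
  refine comb hp (M := (-r).val + p ^ e) (Nat.add_pos_right _ (pow_pos hp.pos _)) ?_ ?_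
  · rw [← ZMod.natCast_eq_zero_iff, Nat.cast_add, Nat.cast_mul, hM]
    linear_combination (norm := (push_cast; ring)) hr
  · have h := map_prod (Zsqrtd.lift ⟨r, by simpa using hr⟩ : GaussianInt →+* ZMod (p ^ e))
      (fun k : ℕ => (⟨1, k⟩ : GaussianInt)) (range (n + 1))
    simp only [Zsqrtd.lift_apply_apply] at h
    rw [(ZMod.intCast_zmod_eq_zero_iff_dvd _ _).2 (by exact_mod_cast h2),
      (ZMod.intCast_zmod_eq_zero_iff_dvd _ _).2 (by exact_mod_cast h1), zero_mul, add_zero] at h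
    rw [← ZMod.natCast_eq_zero_iff, Nat.cast_prod]
    have e1 : ∀ k : ℕ, (((-r).val + p ^ e + k : ℕ) : ZMod (p ^ e)) =
        -r * (((1 : ℤ) : ZMod (p ^ e)) + ((k : ℤ) : ZMod (p ^ e)) * r) := fun k => by
      rw [Nat.cast_add, hM]
      linear_combination (norm := (push_cast; ring)) (k : ZMod (p ^ e)) * hr
    simp only [e1]
    rw [prod_mul_distrib, ← h, mul_zero]

theorem inv (n j : ℕ) (hj : j ≤ n) : ∃ x y : ℤ, 0 < x ∧ 0 ≤ y ∧ (1 ≤ j → 0 < y) ∧
    y * (n + 1 - j) ≤ j * x ∧ x + y ≤ (n + j + 1) ^ j ∧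
    ∃ u ∈ ({⟨x, -y⟩, ⟨y, x⟩, ⟨-x, y⟩, ⟨-y, -x⟩} : Set GaussianInt),
      ∏ k ∈ range (n + j + 1), (⟨1, k⟩ : GaussianInt) = (∏ k ∈ range (n + 1), ⟨1, k⟩) * u := by
  induction j with
  | zero => exact ⟨1, 0, one_pos, le_rfl, by omega, by simp, by simp, _, Or.inl rfl, by
      rw [show (⟨1, -0⟩ : GaussianInt) = 1 from rfl, mul_one]⟩
  | succ j ih =>
    obtain ⟨x, y, x0, y0, -, h1, h2, u, hu, h3⟩ := ih (by omega)
    obtain ⟨m, rfl⟩ : ∃ m, n = j + 1 + m := ⟨n - (j + 1), by omega⟩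
    have j0 : (0 : ℤ) ≤ j := by positivity
    have m0 : (0 : ℤ) ≤ m := by positivity
    obtain ⟨k, hk⟩ : ∃ k : ℤ, k = m + 2 * j + 2 := ⟨_, rfl⟩
    have h1' : y * (m + 2) ≤ j * x := by push_cast at h1; linarith
    have h4 : y ≤ j * x := by nlinarith
    refine ⟨x * k - y, y * k + x, by nlinarith, by nlinarith, fun _ => by nlinarith, ?_, ?_,
      u * ⟨1, k⟩, ?_, ?_⟩
    · push_cast
      refine le_of_mul_le_mul_left (a := (m : ℤ) + 2) ?_ (by positivity)
      have c1 := mul_le_mul_of_nonneg_right h1' (show 0 ≤ k * (m + 1) + j + 1 by nlinarith)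
      have c2 : 0 ≤ x * ((m + j + 2) * k - (m + 1) * (m + 2) - j * (j + 1)) :=
        mul_nonneg x0.le (by rw [hk]; nlinarith)
      nlinarith
    · have c1 : ((j + 1 + m : ℕ) + j + 1 : ℤ) ^ j ≤ (k + 1) ^ j :=
        pow_le_pow_left₀ (by positivity) (by push_cast; linarith) _
      have c2 : ((j + 1 + m : ℕ) + (j + 1 : ℕ) + 1 : ℤ) = k + 1 := by push_cast; linarith
      rw [c2, pow_succ]
      nlinarith [mul_le_mul_of_nonneg_right (h2.trans c1) (show 0 ≤ k + 1 by linarith)]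
    · simp only [Set.mem_insert_iff, Set.mem_singleton_iff] at hu ⊢
      rcases hu with rfl | rfl | rfl | rfl
      · right; left; ext <;> simp <;> ring
      · right; right; left; ext <;> simp <;> ring
      · right; right; right; ext <;> simp <;> ring
      · left; ext <;> simp <;> ring
    · rw [← add_assoc, prod_range_succ, h3, mul_assoc]
      congr 3
      push_cast; linarith

theorem rel (n j : ℕ) (h1 : 1 ≤ j) (hj : j ≤ n) : ∃ c d : ℤ, d ≠ 0 ∧ d.natAbs ≤ (2 * n + 1) ^ j ∧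
    a (n + j) = a n * c + (∏ k ∈ range (n + 1), (⟨1, k⟩ : GaussianInt)).re * d := by
  obtain ⟨x, y, x0, y0, y1, -, h2, u, hu, h3⟩ := inv n j hj
  have y2 := y1 h1
  have h4 : x + y ≤ (((2 * n + 1) ^ j : ℕ) : ℤ) := h2.trans (by
    exact_mod_cast Nat.pow_le_pow_left (by omega) j)
  refine ⟨u.re, u.im, ?_, ?_, by rw [a, h3, Zsqrtd.im_mul, a]; ring⟩ <;>
  · simp only [Set.mem_insert_iff, Set.mem_singleton_iff] at hu
    rcases hu with rfl | rfl | rfl | rfl <;> simp only <;> omega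

theorem main (p : ℕ) (hp : p.Prime) (h4 : p % 4 = 1) (n : ℕ) :
    (p : ℤ) ^ padicValNat p (n + 1).factorial ∣ a n ∧
    (a n ≠ 0 → n + 1 ≤ (p - 1) * padicValInt p (a n) + (p - 1) * (Nat.log p (n + 1) + 1)) ∧
    ∀ j, 1 ≤ j → j ≤ n → (a n ≠ 0 ∨ a (n + j) ≠ 0) ∧
      (p - 1) * min (padicValInt p (a n)) (padicValInt p (a (n + j))) ≤
        n + (p - 1) * (Nat.log p (n * n + 1) + Nat.log p ((2 * n + 1) ^ j)) := by
  haveI := Fact.mk hp
  have h := dvd hp h4 n _ pow_padicValNat_dvd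
  refine ⟨h, fun h0 => ?_, fun j j1 j2 => ?_⟩
  · have h1 := ((padicValInt_dvd_iff _ _).1 h).resolve_left h0
    have h2 := sub_one_mul_padicValNat_factorial (p := p) (n + 1)
    have h3 : (p.digits (n + 1)).sum ≤ (p - 1) * (Nat.log p (n + 1) + 1) := by
      rw [← Nat.length_digits p (n + 1) hp.one_lt (by omega), mul_comm]
      exact List.sum_le_card_nsmul _ _ fun x hx => by
        have := Nat.digits_lt_base hp.one_lt hx; omega
    have h5 := Nat.mul_le_mul_left (p - 1) h1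
    omega
  obtain ⟨c, d, d0, d1, h3⟩ := rel n j j1 j2
  obtain ⟨b, hb⟩ : ∃ b, b = (∏ k ∈ range (n + 1), (⟨1, k⟩ : GaussianInt)).re := ⟨_, rfl⟩
  rw [← hb] at h3
  constructor
  · by_contra! hc
    rw [hc.1, hc.2, zero_mul, zero_add] at h3
    have b0 : b = 0 := (mul_eq_zero.1 h3.symm).resolve_right d0
    have : ∏ k ∈ range (n + 1), (⟨1, k⟩ : GaussianInt) = 0 := Zsqrtd.ext (hb ▸ b0) hc.1
    obtain ⟨k, -, hk⟩ := prod_eq_zero_iff.1 this
    simpa using congrArg Zsqrtd.re hk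
  obtain ⟨e, he⟩ : ∃ e, e = min (padicValInt p (a n)) (padicValInt p (a (n + j))) := ⟨_, rfl⟩
  have h1 : (p : ℤ) ^ e ∣ a n := (padicValInt_dvd_iff _ _).2 (Or.inr (by omega))
  have h2 : (p : ℤ) ^ e ∣ a (n + j) := (padicValInt_dvd_iff _ _).2 (Or.inr (by omega))
  have h5 : (p : ℤ) ^ e ∣ b * d := (dvd_add_right (h1.mul_right c)).1 (h3 ▸ h2)
  have h6 : padicValInt p d ≤ Nat.log p ((2 * n + 1) ^ j) :=
    (padicValNat_le_nat_log (p := p) d.natAbs).trans (Nat.log_mono_right d1)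
  have h7 : (p : ℤ) ^ (e - padicValInt p d) ∣ b := by
    by_cases b0 : b = 0
    · simp [b0]
    · have := ((padicValInt_dvd_iff _ _).1 h5).resolve_left (mul_ne_zero b0 d0)
      rw [padicValInt.mul b0 d0] at this
      exact (padicValInt_dvd_iff _ _).2 (Or.inr (by omega))
  have h8 := upper hp h4 n _ ((pow_dvd_pow _ (Nat.sub_le _ _)).trans h1) (hb ▸ h7)
  have h9 := Nat.mul_le_mul_left (p - 1) (show e ≤ padicValNat p n.factorial +
    (Nat.log p (n * n + 1) + Nat.log p ((2 * n + 1) ^ j)) by omega)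
  have h10 := sub_one_mul_padicValNat_factorial (p := p) n
  rw [mul_add] at h9
  rw [← he]
  omega

theorem sep (E : ℕ → Prop) [DecidablePred E]
    (h : ∀ J : ℕ, ∀ᶠ n in atTop, ∀ j, 1 ≤ j → j ≤ J → E n → ¬ E (n + j)) :
    Tendsto (fun N : ℕ => (#{n ∈ range N | E n} : ℝ) / N) atTop (𝓝 0) := by
  refine tendsto_order.2 ⟨fun b hb => .of_forall fun N => hb.trans_le (by positivity), fun b hb => ?_⟩
  obtain ⟨J, hJ⟩ := exists_nat_one_div_lt (half_pos hb)
  obtain ⟨M, hM⟩ := eventually_atTop.1 (h J)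
  have t := (tendsto_const_div_atTop_nhds_zero_nat ((M : ℝ) + 1)).eventually (gt_mem_nhds (half_pos hb))
  filter_upwards [t, eventually_gt_atTop 0] with N h1 h2
  have a1 : #{n ∈ range N | E n ∧ M ≤ n} ≤ #(range (N / (J + 1) + 1)) := by
    have key : ∀ x y, M ≤ x → E x → E y → x < y → x / (J + 1) ≠ y / (J + 1) := fun x y c1 c2 c3 c4 c5 => by
      have d1 := Nat.div_add_mod x (J + 1)
      have d2 := Nat.div_add_mod y (J + 1)
      have d3 : y % (J + 1) < J + 1 := Nat.mod_lt y (Nat.succ_pos J)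
      rw [c5] at d1
      exact hM x c1 (y - x) (by omega) (by omega) c2 (by rwa [Nat.add_sub_cancel' c4.le])
    refine card_le_card_of_injOn (· / (J + 1)) (fun x hx => ?_) fun x hx y hy q => ?_
    · simp only [coe_filter, mem_range, Set.mem_setOf_eq, coe_range, Set.mem_Iio] at hx ⊢
      exact Nat.lt_succ_of_le (Nat.div_le_div_right hx.1.le)
    · simp only [coe_filter, mem_range, Set.mem_setOf_eq] at hx hy
      rcases lt_trichotomy x y with c | c | c
      · exact absurd q (key x y hx.2.2 hx.2.1 hy.2.1 c)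
      · exact c
      · exact absurd q.symm (key y x hy.2.2 hy.2.1 hx.2.1 c)
  have a2 : #{n ∈ range N | E n} ≤ #(range M) + #{n ∈ range N | E n ∧ M ≤ n} :=
    (card_le_card fun x => by simp; intro c1 c2; by_cases c : x < M <;> simp [*]; omega).trans
      (card_union_le _ _)
  rw [card_range] at a1 a2
  have a3 : (#{n ∈ range N | E n} : ℝ) ≤ M + (((N / (J + 1) : ℕ) : ℝ) + 1) := by
    exact_mod_cast a2.trans (Nat.add_le_add_left a1 _)
  have a4 : ((N / (J + 1) : ℕ) : ℝ) ≤ N / (J + 1) := by exact_mod_cast Nat.cast_div_le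
  have N0 : (0 : ℝ) < N := by exact_mod_cast h2
  rw [div_lt_iff₀ N0] at h1 ⊢
  have a5 : (N : ℝ) / (J + 1) = 1 / (J + 1) * N := by ring
  nlinarith

theorem nlog {p m : ℕ} (hp : 3 ≤ p) (hm : m ≠ 0) : (Nat.log p m : ℝ) ≤ Real.log m := by
  have h1 : ((p : ℝ)) ^ Nat.log p m ≤ m := by exact_mod_cast Nat.pow_log_le_self p hm
  have p3 : (3 : ℝ) ≤ p := by exact_mod_cast hp
  have h2 := Real.log_le_log (by positivity) h1
  rw [Real.log_pow] at h2
  have h3 : 1 ≤ Real.log p := (Real.le_log_iff_exp_le (by positivity)).2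
    (by linarith [Real.exp_one_lt_d9])
  nlinarith [Nat.cast_nonneg (α := ℝ) (Nat.log p m)]

theorem small (C ε : ℝ) (hC : 0 < C) (hε : 0 < ε) :
    ∀ᶠ n : ℕ in atTop, C * Real.log (2 * n + 1) ≤ ε * n := by
  have t : Tendsto (fun n : ℕ => 2 * (n : ℝ) + 1) atTop atTop :=
    tendsto_atTop_add_const_right _ _ (tendsto_natCast_atTop_atTop.const_mul_atTop two_pos)
  filter_upwards [t.eventually (Real.isLittleO_log_id_atTop.bound (c := ε / (3 * C)) (by positivity)),
    eventually_ge_atTop 1] with n h h1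
  have n1 : (1 : ℝ) ≤ n := by exact_mod_cast h1
  rw [id, Real.norm_of_nonneg (Real.log_nonneg (by linarith)), Real.norm_of_nonneg (by linarith),
    div_mul_eq_mul_div, le_div_iff₀ (by positivity)] at h
  nlinarith

theorem dens (p : ℕ) (hp : p.Prime) (h4 : p % 4 = 1) (ε : ℝ) (hε : 0 < ε) :
    Tendsto (fun N : ℕ => (#{n ∈ range N |
      ε < |((p : ℝ) - 1) * padicValInt p (a n) / n - 1|} : ℝ) / N) atTop (𝓝 0) := by
  have p3 : 3 ≤ p := by have := hp.two_le; omega
  have q0 : (2 : ℝ) ≤ (p : ℝ) - 1 := by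
    have : (3 : ℝ) ≤ p := by exact_mod_cast p3
    linarith
  have qe : ((p - 1 : ℕ) : ℝ) = p - 1 := by rw [Nat.cast_sub hp.one_le, Nat.cast_one]
  have t1 := sep (fun n => (1 + ε) * n < ((p : ℝ) - 1) * padicValInt p (a n)) fun J => by
    filter_upwards [small ((p - 1) * (J + 2)) ε (by positivity) hε, eventually_ge_atTop J]
      with n h hn j j1 j2 c1 c2
    have b := (Nat.cast_le (α := ℝ)).2 ((main p hp h4 n).2.2 j j1 (j2.trans hn)).2
    have b1 := nlog (m := n * n + 1) p3 (by omega)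
    have b2 := nlog (m := (2 * n + 1) ^ j) p3 (by positivity)
    have n0 : (0 : ℝ) ≤ n := by positivity
    have l0 : 0 ≤ Real.log (2 * n + 1) := Real.log_nonneg (by linarith)
    have b3 : Real.log (n * n + 1) ≤ 2 * Real.log (2 * n + 1) := by
      rw [show (2 : ℝ) * Real.log (2 * n + 1) = Real.log ((2 * n + 1) ^ 2) by rw [Real.log_pow]; norm_num]
      exact Real.log_le_log (by positivity) (by nlinarith)
    have jJ : (j : ℝ) ≤ J := by exact_mod_cast j2
    have j0 : (0 : ℝ) ≤ j := by positivity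
    push_cast [qe] at b b1 b2 c2
    rw [Real.log_pow] at b2
    have b4 : (Nat.log p (n * n + 1) : ℝ) + Nat.log p ((2 * n + 1) ^ j) ≤ (J + 2) * Real.log (2 * n + 1) := by
      nlinarith
    have b5 := mul_le_mul_of_nonneg_left b4 (show 0 ≤ (p : ℝ) - 1 by linarith)
    rcases min_cases (padicValInt p (a n) : ℝ) (padicValInt p (a (n + j))) with q | q <;>
      rw [q.1] at b <;> nlinarith
  have t2 := sep (fun n => ((p : ℝ) - 1) * padicValInt p (a n) < (1 - ε) * n) fun J => by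
    obtain ⟨M, hM⟩ := eventually_atTop.1 (small ((p - 1) * 2) ε (by positivity) hε)
    have z : ∀ n, M ≤ n → 1 ≤ n → ((p : ℝ) - 1) * padicValInt p (a n) < (1 - ε) * n → a n = 0 := by
      intro n c1 c2 c3
      by_contra c4
      have b := (Nat.cast_le (α := ℝ)).2 ((main p hp h4 n).2.1 c4)
      have b1 := nlog (m := n + 1) p3 (by omega)
      have n1 : (1 : ℝ) ≤ n := by exact_mod_cast c2
      push_cast [qe] at b b1
      have b2 : Real.log (n + 1) ≤ Real.log (2 * n + 1) := Real.log_le_log (by positivity) (by linarith)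
      have b3 : 1 ≤ Real.log (2 * n + 1) := (Real.le_log_iff_exp_le (by positivity)).2
        (by linarith [Real.exp_one_lt_d9])
      have b5 := mul_le_mul_of_nonneg_left (show (Nat.log p (n + 1) : ℝ) + 1 ≤ 2 * Real.log (2 * n + 1)
        by linarith) (show 0 ≤ (p : ℝ) - 1 by linarith)
      have := hM n c1
      nlinarith
    filter_upwards [eventually_ge_atTop M, eventually_ge_atTop 1, eventually_ge_atTop J]
      with n c1 c2 c3 j j1 j2 d1 d2
    rcases ((main p hp h4 n).2.2 j j1 (j2.trans c3)).1 with q | q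
    · exact q (z n c1 c2 d1)
    · exact q (z _ (by omega) (by omega) d2)
  have t3 := (t1.add t2).add (tendsto_const_div_atTop_nhds_zero_nat (1 : ℝ))
  simp only [add_zero] at t3
  refine squeeze_zero (fun N => by positivity) (fun N => ?_) t3
  rw [← add_div, ← add_div]
  refine div_le_div_of_nonneg_right ?_ (by positivity)
  rw [← Nat.cast_add, ← Nat.cast_add_one, Nat.cast_le]
  refine le_trans (card_le_card (t := ({n ∈ range N | (1 + ε) * n < ((p : ℝ) - 1) * padicValInt p (a n)} ∪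
    {n ∈ range N | ((p : ℝ) - 1) * padicValInt p (a n) < (1 - ε) * n}) ∪ {0}) fun n hn => ?_)
    ((card_union_le _ _).trans (Nat.add_le_add (card_union_le _ _) (by simp)))
  simp only [mem_union, mem_filter, mem_singleton] at hn ⊢
  rcases Nat.eq_zero_or_pos n with h0 | h0
  · exact Or.inr h0
  have n0 : (0 : ℝ) < n := by exact_mod_cast h0
  rcases lt_abs.1 hn.2 with c | c
  · exact Or.inl (Or.inl ⟨hn.1, (lt_div_iff₀ n0).1 (by linarith)⟩)
  · exact Or.inl (Or.inr ⟨hn.1, (div_lt_iff₀ n0).1 (by linarith)⟩)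

theorem result (p : ℕ) (hp : p.Prime) (h4 : p % 4 = 1) (ε : ℝ) (hε : 0 < ε) :
    Tendsto (fun N : ℕ => (#{n ∈ range N |
      ε < |((p : ℝ) - 1) * padicValInt p (a n) / n - 1|} : ℝ) / N) atTop (𝓝 0) :=
  dens p hp h4 ε hε

end Pool.Agent.Results.MP_054fa1_nt.Density
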