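import Mathlib

set_option autoImplicit false

namespace Pool.Agent.Results.MP_054fa1_nt.Divides

open Finset Filter Topology

/-- `a n = Im ∏_{k=0}^{n} (1 + k i)` -/
def a (n : ℕ) : ℤ := (∏ k ∈ range (n + 1), (⟨1, k⟩ : GaussianInt)).im

theorem zero {q n : ℕ} [NeZero q] (hq : q ∣ (n + 1).factorial) (r : ZMod q) (hr : r * r = -1) :
    ((∏ k ∈ range (n + 1), (⟨1, k⟩ : GaussianInt)).re : ZMod q) + (a n : ZMod q) * r = 0 := by
  have h := map_prod (Zsqrtd.lift ⟨r, by simpa using hr⟩ : GaussianInt →+* ZMod q)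
    (fun k : ℕ => (⟨1, k⟩ : GaussianInt)) (range (n + 1))
  simp only [Zsqrtd.lift_apply_apply] at h
  rw [a, h]
  have e : ∀ k : ℕ, ((1 : ℤ) : ZMod q) + ((k : ℤ) : ZMod q) * r = r * (((-r).val + k : ℕ) : ZMod q) := by
    intro k
    push_cast
    rw [ZMod.natCast_zmod_val]
    linear_combination hr
  simp only [e]
  rw [prod_mul_distrib, ← Nat.cast_prod, ← Nat.ascFactorial_eq_prod_range,
    (ZMod.natCast_eq_zero_iff _ _).2 (hq.trans (Nat.factorial_dvd_ascFactorial _ _)), mul_zero]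

theorem exr {p : ℕ} (hp : p.Prime) (h4 : p % 4 = 1) (e : ℕ) :
    ∃ r : ZMod (p ^ e), r * r = -1 := by
  haveI := Fact.mk hp
  haveI : NeZero (p ^ e) := ⟨pow_ne_zero _ hp.ne_zero⟩
  obtain ⟨s, hs⟩ := ZMod.exists_sq_eq_neg_one_iff.2 (show p % 4 ≠ 3 by omega)
  have h1 : (p : ℤ) ∣ (s.val : ℤ) * s.val - (-1) := by
    rw [← ZMod.intCast_zmod_eq_zero_iff_dvd]; push_cast
    rw [ZMod.natCast_zmod_val, ← hs]; ring
  have h2 := dvd_sub_pow_of_dvd_sub h1 e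
  have odd : Odd (p ^ e) := (Nat.odd_iff.2 (by omega)).pow
  rw [odd.neg_one_pow, mul_pow] at h2
  have h3 : ((p ^ e : ℕ) : ℤ) ∣ (s.val : ℤ) ^ p ^ e * (s.val : ℤ) ^ p ^ e - (-1) := by
    push_cast; exact (pow_dvd_pow _ (Nat.le_succ e)).trans h2
  rw [← ZMod.intCast_zmod_eq_zero_iff_dvd] at h3
  exact
    ⟨(((s.val : ℤ) ^ p ^ e : ℤ) : ZMod (p ^ e)), by
      rw [Int.cast_sub, Int.cast_mul] at h3
      linear_combination (norm := (push_cast; ring)) h3⟩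

theorem dvd {p : ℕ} (hp : p.Prime) (h4 : p % 4 = 1) (n e : ℕ) (he : p ^ e ∣ (n + 1).factorial) :
    (p : ℤ) ^ e ∣ a n := by
  haveI : NeZero (p ^ e) := ⟨pow_ne_zero _ hp.ne_zero⟩
  have odd : Odd (p ^ e) := (Nat.odd_iff.2 (by omega)).pow
  obtain ⟨r, hr⟩ := exr hp h4 e
  have z1 := zero he r hr
  have z2 := zero he (-r) (by rw [neg_mul_neg, hr])
  have z3 : ((2 * a n : ℤ) : ZMod (p ^ e)) = 0 := by
    push_cast
    linear_combination (-r) * z1 + r * z2 + 2 * (a n : ZMod (p ^ e)) * hr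
  rw [ZMod.intCast_zmod_eq_zero_iff_dvd] at z3
  have cop : IsCoprime ((p ^ e : ℕ) : ℤ) 2 := by
    exact_mod_cast Nat.isCoprime_iff_coprime.2 (Nat.coprime_two_right.2 odd)
  exact_mod_cast cop.dvd_of_dvd_mul_left z3

theorem result (p : ℕ) (hp : p.Prime) (h4 : p % 4 = 1) (n : ℕ) :
    (p : ℤ) ^ padicValNat p (n + 1).factorial ∣ a n :=
  dvd hp h4 n _ pow_padicValNat_dvd

end Pool.Agent.Results.MP_054fa1_nt.Divides
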